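import Mathlib

set_option autoImplicit false

/-! # Product sets of difference sets in finite Boolean rings need not contain large subrings -/

namespace Pool.Agent.Results.MP_96ce97_co.BooleanRings

open Finset

/-- indicator vector -/
def ind {n : ℕ} (s : Finset (Fin n)) : Fin n → ZMod 2 := fun i => if i ∈ s then 1 else 0

/-- Hamming weight -/
def wt {n : ℕ} (x : Fin n → ZMod 2) : ℕ := (univ.filter fun i => x i ≠ 0).card

theorem ind_injective {n : ℕ} : Function.Injective (ind (n := n)) := by
  intro s s' h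
  ext i
  have := congrFun h i
  unfold ind at this
  by_cases h1 : i ∈ s <;> by_cases h2 : i ∈ s' <;> simp_all

theorem wt_diff {m t : ℕ} (s s' : Finset (Fin (2 * m))) (hs : m + t ≤ s.card)
    (hs' : m + t ≤ s'.card) : wt (ind s - ind s') ≤ 2 * (m - t) := by
  have h1 : (univ.filter fun i => (ind s - ind s') i ≠ 0) ⊆ s'ᶜ ∪ sᶜ := by
    intro i hi
    rw [mem_filter] at hi
    rw [mem_union, mem_compl, mem_compl]
    by_contra hcon
    push Not at hcon
    apply hi.2
    simp [ind, hcon.1, hcon.2]
  have h2 := (card_le_card h1).trans (card_union_le _ _)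
  rw [card_compl, card_compl, Fintype.card_fin] at h2
  unfold wt
  omega

theorem wt_mul_le {n : ℕ} (x y : Fin n → ZMod 2) : wt (x * y) ≤ wt x := by
  apply card_le_card
  intro i hi
  rw [mem_filter] at hi ⊢
  refine ⟨hi.1, fun h => hi.2 ?_⟩
  simp [h]

/-- An additive subgroup of index at most `k` contains a vector of weight greater than `n - k`. -/
theorem heavy {n k : ℕ} (H : AddSubgroup (Fin n → ZMod 2)) (hk : H.index ≤ k) :
    ∃ z ∈ H, n < wt z + k := by
  obtain ⟨z, hz⟩ := Finite.exists_max (fun z : H => wt z.1)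
  refine ⟨z.1, z.2, ?_⟩
  by_contra hcon
  push Not at hcon
  let Z : Finset (Fin n) := univ.filter fun i => z.1 i = 0
  have hZ : k ≤ Z.card := by
    have h1 := card_filter_add_card_filter_not (s := (univ : Finset (Fin n))) (fun i => z.1 i = 0)
    rw [card_univ, Fintype.card_fin] at h1
    have h2 : wt z.1 = (univ.filter fun i => ¬ z.1 i = 0).card := rfl
    show k ≤ (univ.filter fun i => z.1 i = 0).card
    omega
  obtain ⟨Z', hZ', hZc⟩ := exists_subset_card_eq hZ
  let e := Z'.orderEmbOfFin hZc
  have he : ∀ j, z.1 (e j) = 0 := by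
    intro j
    have := hZ' (Z'.orderEmbOfFin_mem hZc j)
    exact (mem_filter.mp this).2
  let s : Fin (k + 1) → (Fin n → ZMod 2) := fun j => ind ((univ.filter fun l : Fin k =>
    l.val < j.val).map e.toEmbedding)
  haveI : Fintype ((Fin n → ZMod 2) ⧸ H) := Fintype.ofFinite _
  have hcard : Fintype.card ((Fin n → ZMod 2) ⧸ H) < Fintype.card (Fin (k + 1)) := by
    rw [Fintype.card_fin, ← Nat.card_eq_fintype_card, ← AddSubgroup.index_eq_card]
    omega
  obtain ⟨i, j, hij, heq⟩ := Fintype.exists_ne_map_eq_of_card_lt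
    (fun j => (QuotientAddGroup.mk (s j) : (Fin n → ZMod 2) ⧸ H)) hcard
  wlog hlt : i < j generalizing i j
  · exact this j i hij.symm heq.symm (lt_of_le_of_ne (not_lt.mp hlt) hij.symm)
  have hv : -s i + s j ∈ H := QuotientAddGroup.eq.mp heq
  have hlt' : i.val < j.val := hlt
  have hj := j.2
  let l0 : Fin k := ⟨i.val, by omega⟩
  have hmem : ∀ (a : Fin (k + 1)) (l : Fin k), s a (e l) = if l.val < a.val then 1 else 0 := by
    intro a l
    simp only [s, ind]
    congr 1
    rw [eq_iff_iff]
    simp only [mem_map, mem_filter, mem_univ, true_and]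
    constructor
    · rintro ⟨l', hl', h⟩
      have : l' = l := e.injective h
      rwa [← this]
    · intro h
      exact ⟨l, h, rfl⟩
  have hout : ∀ (a : Fin (k + 1)) (x : Fin n), z.1 x ≠ 0 → s a x = 0 := by
    intro a x hx
    simp only [s, ind]
    rw [if_neg]
    simp only [mem_map, mem_filter, mem_univ, true_and]
    rintro ⟨l, -, hl⟩
    apply hx
    rw [← hl]
    exact he l
  have hz' := hz ⟨z.1 + (-s i + s j), H.add_mem z.2 hv⟩
  simp only at hz'
  have hlt2 : wt z.1 < wt (z.1 + (-s i + s j)) := by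
    apply card_lt_card
    rw [ssubset_iff_of_subset]
    · refine ⟨e l0, ?_, ?_⟩
      · rw [mem_filter]
        refine ⟨mem_univ _, ?_⟩
        simp only [Pi.add_apply, Pi.neg_apply, hmem, he, l0]
        simp [hlt']
      · rw [mem_filter]
        simp [he]
    · intro x hx
      rw [mem_filter] at hx ⊢
      refine ⟨mem_univ _, ?_⟩
      simp only [Pi.add_apply, Pi.neg_apply, hout _ x hx.2]
      simpa using hx.2
  omega

theorem central_sq (m : ℕ) : (Nat.centralBinom m) ^ 2 * (2 * m + 1) ≤ 16 ^ m := by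
  induction m with
  | zero => simp [Nat.centralBinom]
  | succ m ih =>
    have h := Nat.succ_mul_centralBinom_succ m
    set a := Nat.centralBinom m
    set b := Nat.centralBinom (m + 1)
    have h1 : ((m + 1) * b) ^ 2 * (2 * (m + 1) + 1) ≤ 16 ^ (m + 1) * (m + 1) ^ 2 := by
      calc ((m + 1) * b) ^ 2 * (2 * (m + 1) + 1)
          = (a ^ 2 * (2 * m + 1)) * (4 * ((2 * m + 1) * (2 * m + 3))) := by
            rw [h]; ring
        _ ≤ 16 ^ m * (4 * (4 * (m + 1) ^ 2)) := by
            apply Nat.mul_le_mul ih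
            apply Nat.mul_le_mul_left
            nlinarith
        _ = 16 ^ (m + 1) * (m + 1) ^ 2 := by ring
    have h2 : (b ^ 2 * (2 * (m + 1) + 1)) * (m + 1) ^ 2 ≤ 16 ^ (m + 1) * (m + 1) ^ 2 := by
      calc (b ^ 2 * (2 * (m + 1) + 1)) * (m + 1) ^ 2 = ((m + 1) * b) ^ 2 * (2 * (m + 1) + 1) := by
            ring
        _ ≤ _ := h1
    exact Nat.le_of_mul_le_mul_right h2 (by positivity)

theorem central_small (m t : ℕ) (h : 16 * t ^ 2 ≤ m) : 4 * t * Nat.centralBinom m ≤ 4 ^ m := by
  have h1 := central_sq m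
  have h2 : (4 * t * Nat.centralBinom m) ^ 2 ≤ (4 ^ m) ^ 2 := by
    calc (4 * t * Nat.centralBinom m) ^ 2 = (Nat.centralBinom m) ^ 2 * (16 * t ^ 2) := by ring
      _ ≤ (Nat.centralBinom m) ^ 2 * (2 * m + 1) := by
          apply Nat.mul_le_mul_left
          omega
      _ ≤ 16 ^ m := h1
      _ = (4 ^ m) ^ 2 := by rw [← pow_mul, mul_comm, pow_mul]; norm_num
  exact (Nat.pow_le_pow_iff_left (by norm_num)).mp h2

/-- the sets with at least `m + t` elements -/
theorem card_big (m t : ℕ) (htm : t ≤ m) (h : 16 * t ^ 2 ≤ m) :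
    4 ^ m ≤ 4 * ((univ : Finset (Finset (Fin (2 * m)))).filter fun s => m + t ≤ s.card).card := by
  set big := (univ : Finset (Finset (Fin (2 * m)))).filter fun s => m + t ≤ s.card with hbig
  set small := (univ : Finset (Finset (Fin (2 * m)))).filter fun s => s.card + t ≤ m with hsmall
  have h1 : small.card ≤ big.card := by
    apply card_le_card_of_injOn (fun s => sᶜ)
    · intro s hs
      simp only [hsmall, hbig, coe_filter, mem_univ, true_and, Set.mem_ofPred_eq] at hs ⊢
      rw [card_compl, Fintype.card_fin]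
      omega
    · intro s _ s' _ h
      exact compl_injective h
  have h2 : (univ : Finset (Finset (Fin (2 * m)))) ⊆ (big ∪ small) ∪
      (Finset.Ioo (m - t) (m + t)).biUnion fun j => powersetCard j (univ : Finset (Fin (2 * m))) := by
    intro s _
    simp only [mem_union, hbig, hsmall, mem_filter, mem_univ, true_and, mem_biUnion, mem_Ioo,
      mem_powersetCard, subset_univ]
    by_cases h3 : m + t ≤ s.card
    · exact Or.inl (Or.inl h3)
    · by_cases h4 : s.card + t ≤ m
      · exact Or.inl (Or.inr h4)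
      · exact Or.inr ⟨s.card, ⟨by omega, by omega⟩, rfl⟩
  have h3 := (card_le_card h2).trans ((card_union_le _ _).trans
    (Nat.add_le_add (card_union_le _ _) card_biUnion_le))
  have h4 : ∑ j ∈ Finset.Ioo (m - t) (m + t), (powersetCard j (univ : Finset (Fin (2 * m)))).card ≤
      (2 * t) * Nat.centralBinom m := by
    refine (sum_le_card_nsmul _ _ (Nat.centralBinom m) ?_).trans ?_
    · intro j _
      rw [card_powersetCard, card_univ, Fintype.card_fin]
      exact Nat.choose_le_centralBinom j m
    · rw [smul_eq_mul, Nat.card_Ioo]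
      apply Nat.mul_le_mul_right
      omega
  rw [card_univ, Fintype.card_finset, Fintype.card_fin] at h3
  have h5 := central_small m t h
  have h6 : 2 ^ (2 * m) = 4 ^ m := by rw [pow_mul]; norm_num
  rw [h6] at h3
  have h7 : 4 * t * Nat.centralBinom m = 2 * (2 * t * Nat.centralBinom m) := by ring
  omega

/-- **Negative answer.** With `α = 1/4`: for all `N` and `k` there are a finite commutative ring `R`
with at least `N` elements and `E ⊆ R` with `|E| ≥ α |R|` such that no subring (possibly without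
identity) of `R` contained in `(E - E)(E - E)` has index at most `k`. -/
theorem result : ∃ α : ℝ, 0 < α ∧ ∀ N k : ℕ, ∃ (R : Type) (_ : CommRing R) (_ : Fintype R)
    (E : Finset R), N ≤ Fintype.card R ∧ α * (Fintype.card R : ℝ) ≤ (E.card : ℝ) ∧
    ∀ R₀ : NonUnitalSubring R,
      (∀ z ∈ R₀, ∃ a ∈ E, ∃ b ∈ E, ∃ c ∈ E, ∃ d ∈ E, z = (a - b) * (c - d)) →
      k < R₀.toAddSubgroup.index := by
  classical
  refine ⟨1 / 4, by norm_num, fun N k => ?_⟩
  set t := k + 1 with ht
  set m := 16 * t ^ 2 + N with hm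
  have htm : t ≤ m := by nlinarith
  refine ⟨Fin (2 * m) → ZMod 2, inferInstance, inferInstance,
    ((univ : Finset (Finset (Fin (2 * m)))).filter fun s => m + t ≤ s.card).image ind, ?_, ?_, ?_⟩
  · rw [Fintype.card_fun, Fintype.card_fin, ZMod.card]
    calc N ≤ 2 * m := by omega
      _ ≤ 2 ^ (2 * m) := Nat.lt_two_pow_self.le
  · rw [Fintype.card_fun, Fintype.card_fin, ZMod.card, card_image_of_injective _ ind_injective]
    have h1 := card_big m t htm (by omega)
    have h2 : (2 : ℕ) ^ (2 * m) = 4 ^ m := by rw [pow_mul]; norm_num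
    rw [h2]
    have h3 : ((4 ^ m : ℕ) : ℝ) ≤ ((4 * ((univ : Finset (Finset (Fin (2 * m)))).filter
      fun s => m + t ≤ s.card).card : ℕ) : ℝ) := Nat.cast_le.mpr h1
    push_cast at h3 ⊢
    linarith
  · intro R₀ hR₀
    by_contra hcon
    push Not at hcon
    obtain ⟨z, hz, hwt⟩ := heavy R₀.toAddSubgroup hcon
    obtain ⟨a, ha, b, hb, c, hc, d, hd, hzz⟩ := hR₀ z hz
    obtain ⟨s, hs, rfl⟩ := mem_image.mp ha
    obtain ⟨s', hs', rfl⟩ := mem_image.mp hb
    have h1 := wt_diff s s' (mem_filter.mp hs).2 (mem_filter.mp hs').2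
    have h2 := wt_mul_le (ind s - ind s') (c - d)
    rw [← hzz] at h2
    omega

end Pool.Agent.Results.MP_96ce97_co.BooleanRings
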